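import Pool.Agent.Lib.MP_640444_pr.Final

set_option autoImplicit false
open MeasureTheory
open Pool.Agent.Lib.MP_640444_pr

namespace Pool.Agent.Results.MP_640444_pr.Unique

/-- For every mean current in the interior of the octahedron there is exactly one ergodic Gibbs
measure of the dimer model on Z^3. -/
theorem result (s : Fin 3 → ℝ) (hs : (∑ i, |s i|) < 1) :
    ∃! μ : Measure ((Fin 3 → ℤ) → (Fin 3 → ℤ)), IsEGM s μ := by
  obtain ⟨μ, h⟩ := exist_all s hs
  exact ⟨μ, h, fun ν hν => uniq_all s ν μ hs hν h⟩

end Pool.Agent.Results.MP_640444_pr.Unique
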